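import Pool.Agent.helper6.EU.SpecT

/-!
# Project eu (MP_ad8ced_nt), row TVR (helper66): Vaughan's identity for rough integers
-/

set_option autoImplicit false

open Finset

noncomputable section

namespace Pool.Agent.EU

open Pool.Agent.FI Pool.Agent.FJ

private lemma TVR_mul {Z a b : ℕ} (ha : RgN Z a) (hb : RgN Z b) : RgN Z (a * b) := by
  intro p hp hd
  rcases (Nat.Prime.dvd_mul hp).1 hd with h | h
  · exact ha p hp h
  · exact hb p hp h

private lemma TVR_dvd {Z a b : ℕ} (hb : RgN Z b) (h : a ∣ b) : RgN Z a := fun p hp hd => hb p hp (hd.trans h)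

private lemma TVR_zero1 {Z U V D n q : ℕ} (hn : ¬ RgN Z n) (hq : q ∣ n) : bCc Z U V D q * aOn Z (n / q) = 0 := by
  by_cases h1 : RgN Z q
  · have h2 : ¬ RgN Z (n / q) := fun h2 => hn (Nat.mul_div_cancel' hq ▸ TVR_mul h1 h2)
    have h3 : aOn Z (n / q) = 0 := by
      unfold aOn
      rw [if_neg]
      exact fun h => h2 h.2
    rw [h3, mul_zero]
  · have h3 : bCc Z U V D q = 0 := by
      unfold bCc
      rw [if_neg]
      exact fun h => h1 h.2
    rw [h3, zero_mul]

private lemma TVR_zero2 {Z U V X n q : ℕ} (hn : ¬ RgN Z n) (hq : q ∣ n) : bMu Z V q * aLm Z U X (n / q) = 0 := by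
  by_cases h1 : RgN Z q
  · have h2 : ¬ RgN Z (n / q) := fun h2 => hn (Nat.mul_div_cancel' hq ▸ TVR_mul h1 h2)
    have h3 : aLm Z U X (n / q) = 0 := by
      unfold aLm
      rw [if_neg]
      exact fun h => h2 h.2.2
    rw [h3, mul_zero]
  · have h3 : bMu Z V q = 0 := by
      unfold bMu
      rw [if_neg]
      exact fun h => h1 h.2
    rw [h3, zero_mul]

theorem TVR (hVGI : VGI_stmt) : TVR_stmt := by
  classical
  intro Z U V D X n hU hV hUn hnX
  have hn0 : n ≠ 0 := by omega
  by_cases hn : RgN Z n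
  · rw [if_pos hn, if_pos hn, (hVGI U V n hU hV hUn).1]
    have h1 : ∑ q ∈ n.divisors, bCc Z U V D q * aOn Z (n / q) = ∑ q ∈ n.divisors with ¬ q ≤ D, cc U V q := by
      rw [Finset.sum_filter]
      refine Finset.sum_congr rfl fun q hq => ?_
      have hqn := Nat.dvd_of_mem_divisors hq
      have h2 : RgN Z q := TVR_dvd hn hqn
      have h3 : RgN Z (n / q) := TVR_dvd hn (Nat.div_dvd_of_dvd hqn)
      have h4 : 1 ≤ n / q := Nat.div_pos (Nat.le_of_dvd (by omega) hqn) (Nat.pos_of_mem_divisors hq)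
      have h5 : aOn Z (n / q) = 1 := by
        unfold aOn
        rw [if_pos ⟨h4, h3⟩]
      rw [h5, mul_one]
      unfold bCc
      by_cases h6 : q ≤ D
      · rw [if_neg (fun h => absurd h.1 (not_lt.2 h6)), if_neg (not_not.2 h6)]
      · rw [if_pos ⟨not_le.1 h6, h2⟩, if_pos h6]
    have h2 : ∑ q ∈ n.divisors, cc U V q = ∑ q ∈ n.divisors with q ≤ D, cc U V q + ∑ q ∈ n.divisors with ¬ q ≤ D, cc U V q :=
      (Finset.sum_filter_add_sum_filter_not n.divisors (fun q => q ≤ D) (fun q => cc U V q)).symm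
    have h3 : ∑ d ∈ n.divisors, bMu Z V d * aLm Z U X (n / d) =
        ∑ m ∈ n.divisors with U < m, ArithmeticFunction.vonMangoldt m * al V (n / m) := by
      have e1 : ∑ d ∈ n.divisors, bMu Z V d * aLm Z U X (n / d) =
          ∑ d ∈ n.divisors with V < d, ∑ m ∈ (n / d).divisors with U < m,
            (ArithmeticFunction.vonMangoldt m) * (ArithmeticFunction.moebius d : ℝ) := by
        rw [Finset.sum_filter]
        refine Finset.sum_congr rfl fun d hd => ?_
        have hdn := Nat.dvd_of_mem_divisors hd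
        have g2 : RgN Z d := TVR_dvd hn hdn
        have g3 : RgN Z (n / d) := TVR_dvd hn (Nat.div_dvd_of_dvd hdn)
        have g4 : 1 ≤ n / d := Nat.div_pos (Nat.le_of_dvd (by omega) hdn) (Nat.pos_of_mem_divisors hd)
        have g5 : n / d ≤ X := (Nat.div_le_self n d).trans hnX
        by_cases h6 : V < d
        · rw [if_pos h6]
          unfold bMu aLm
          rw [if_pos ⟨h6, g2⟩, if_pos ⟨g4, g5, g3⟩, Finset.mul_sum]
          exact Finset.sum_congr rfl fun m _ => mul_comm _ _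
        · rw [if_neg h6]
          unfold bMu
          rw [if_neg (fun h => h6 h.1), zero_mul]
      have e2 : ∑ m ∈ n.divisors with U < m, ArithmeticFunction.vonMangoldt m * al V (n / m) =
          ∑ m ∈ n.divisors with U < m, ∑ d ∈ (n / m).divisors with V < d,
            (ArithmeticFunction.vonMangoldt m) * (ArithmeticFunction.moebius d : ℝ) := by
        refine Finset.sum_congr rfl fun m _ => ?_
        unfold al
        rw [Finset.mul_sum]
      rw [e1, e2]
      refine Finset.sum_comm' ?_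
      intro d m
      simp only [Finset.mem_filter, Nat.mem_divisors]
      constructor
      · rintro ⟨⟨⟨a1, -⟩, a2⟩, ⟨a3, -⟩, a4⟩
        have a5 : d * m ∣ n := (Nat.dvd_div_iff_mul_dvd a1).1 a3
        have a6 : m ∣ n := (Dvd.intro_left d rfl).trans a5
        refine ⟨⟨⟨(Nat.dvd_div_iff_mul_dvd a6).2 (by rwa [mul_comm]), ?_⟩, a2⟩, ⟨a6, hn0⟩, a4⟩
        exact (Nat.div_pos (Nat.le_of_dvd (by omega) a6) (by omega)).ne'
      · rintro ⟨⟨⟨a3, -⟩, a2⟩, ⟨a1, -⟩, a4⟩
        have a5 : m * d ∣ n := (Nat.dvd_div_iff_mul_dvd a1).1 a3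
        have a6 : d ∣ n := (Dvd.intro_left m rfl).trans a5
        refine ⟨⟨⟨a6, hn0⟩, a2⟩, ⟨(Nat.dvd_div_iff_mul_dvd a6).2 (by rwa [mul_comm]), ?_⟩, a4⟩
        exact (Nat.div_pos (Nat.le_of_dvd (by omega) a6) (by omega)).ne'
    rw [h1, h3, h2]
    ring
  · rw [if_neg hn, if_neg hn]
    rw [Finset.sum_eq_zero fun q hq => TVR_zero1 hn (Nat.dvd_of_mem_divisors hq),
      Finset.sum_eq_zero fun q hq => TVR_zero2 hn (Nat.dvd_of_mem_divisors hq)]
    ring

end Pool.Agent.EU
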