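import Pool.Agent.helper52.EU.SpecI

/-!
# Project eu (MP_ad8ced_nt), row VAR (helper66): variation in a cell
-/

set_option autoImplicit false

open Finset

noncomputable section

namespace Pool.Agent.EU

open Pool.Agent.FI Pool.Agent.FJ

private lemma VAR_two (t : ℝ) (h0 : 0 ≤ t) (h1 : t ≤ 1) : (2 : ℝ) ^ t ≤ 1 + t ∧ 1 - t ≤ (2 : ℝ) ^ (-t) := by
  have h2 : (2 : ℝ) ^ t ≤ 1 + t := by
    have h := rpow_one_add_le_one_add_mul_self (s := 1) (by norm_num) h0 h1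
    norm_num at h
    exact h
  refine ⟨h2, ?_⟩
  have h3 : 0 < (2 : ℝ) ^ t := Real.rpow_pos_of_pos (by norm_num) _
  rw [Real.rpow_neg (by norm_num), ← one_div, le_div_iff₀ h3]
  have h4 : (1 - t) * (2 : ℝ) ^ t ≤ (1 - t) * (1 + t) := mul_le_mul_of_nonneg_left h2 (by linarith)
  nlinarith

private lemma VAR_core (K₁ K₃ K₄ x N A l l' r r' p q d a a' : ℝ) (hK₃ : 0 < K₃) (hK₄ : 0 < K₄)
    (hx : 0 < x) (hN : 0 < N) (hA : 0 < A) (hd : N * A < K₁ * (x * |d|)) (hK : 160 * K₁ * x ^ 2 ≤ K₄ * A ^ 2)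
    (hl : 0 < l) (hl' : 0 < l') (hl2 : l ≤ 2 * x) (hll : |l - l'| ≤ l' / K₃) (hr : |r - r'| ≤ 4 / (K₃ * K₄))
    (hq : |q| ≤ 20 * N) (ha : d * a = l * (p - q * r)) (ha' : d * a' = l' * (p - q * r')) :
    K₃ * |a - a'| ≤ |a'| + A := by
  have hd0 : 0 < |d| := by
    by_contra h
    have h1 : |d| = 0 := le_antisymm (not_lt.1 h) (abs_nonneg _)
    rw [h1] at hd
    have : 0 < N * A := by positivity
    linarith [mul_zero x, mul_zero K₁]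
  have hdne : d ≠ 0 := abs_pos.1 hd0
  have e1 : a - a' = (l - l') * a' / l' - l * q * (r - r') / d := by
    have h1 : a = l * (p - q * r) / d := by
      rw [← ha]; field_simp
    have h2 : a' = l' * (p - q * r') / d := by
      rw [← ha']; field_simp
    rw [h1, h2]
    field_simp
    ring
  have h1 : |(l - l') * a' / l'| ≤ |a'| / K₃ := by
    rw [abs_div, abs_mul, abs_of_pos hl', div_le_iff₀ hl']
    calc |l - l'| * |a'| ≤ l' / K₃ * |a'| := mul_le_mul_of_nonneg_right hll (abs_nonneg _)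
      _ = |a'| / K₃ * l' := by ring
  have h2 : |l * q * (r - r') / d| ≤ A / K₃ := by
    rw [abs_div, abs_mul, abs_mul, abs_of_pos hl, div_le_iff₀ hd0]
    have h3 : l * |q| * |r - r'| ≤ (2 * x) * (20 * N) * (4 / (K₃ * K₄)) := by
      have h4 : l * |q| ≤ (2 * x) * (20 * N) := mul_le_mul hl2 hq (abs_nonneg _) (by positivity)
      exact mul_le_mul h4 hr (abs_nonneg _) (by positivity)
    refine h3.trans ?_
    have h5 : 160 * x * N ≤ K₄ * A * |d| := by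
      have h6 : (160 * x * N) * A ≤ (K₄ * A * |d|) * A := by
        calc (160 * x * N) * A = 160 * x * (N * A) := by ring
          _ ≤ 160 * x * (K₁ * (x * |d|)) := mul_le_mul_of_nonneg_left hd.le (by positivity)
          _ = 160 * K₁ * x ^ 2 * |d| := by ring
          _ ≤ K₄ * A ^ 2 * |d| := mul_le_mul_of_nonneg_right hK hd0.le
          _ = (K₄ * A * |d|) * A := by ring
      exact le_of_mul_le_mul_right h6 hA
    have e2 : 2 * x * (20 * N) * (4 / (K₃ * K₄)) = (160 * x * N) / (K₃ * K₄) := by ring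
    rw [e2, div_le_iff₀ (by positivity)]
    have e3 : A / K₃ * |d| * (K₃ * K₄) = K₄ * A * |d| := by
      field_simp
    rw [e3]
    exact h5
  rw [e1]
  have h3 := abs_sub ((l - l') * a' / l') (l * q * (r - r') / d)
  calc K₃ * |(l - l') * a' / l' - l * q * (r - r') / d| ≤ K₃ * (|a'| / K₃ + A / K₃) :=
        mul_le_mul_of_nonneg_left (by linarith) hK₃.le
    _ = |a'| + A := by field_simp

/-- What `InC` says about `l₁` and the quotient. -/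
private lemma VAR_inc (hGPT : GPT_stmt) (x K₃ K₄ b : ℕ) (m l₁ l₂ : ℤ) (hx : 1 ≤ x) (hK₃ : 1 ≤ K₃) (hK₄ : 1 ≤ K₄)
    (hb : b < K₃) (h : InC x K₃ K₄ b m l₁ l₂) :
    (x : ℝ) * (2 : ℝ) ^ ((b : ℝ) / K₃) < l₁ ∧ (l₁ : ℝ) ≤ x * (2 : ℝ) ^ (((b : ℝ) + 1) / K₃) ∧
    (2 : ℝ) ^ (((m : ℝ) - 1) / (K₃ * K₄)) ≤ (l₂ : ℝ) / l₁ ∧ (l₂ : ℝ) / l₁ ≤ (2 : ℝ) ^ (((m : ℝ) + 1) / (K₃ * K₄)) ∧
    |(m : ℝ)| ≤ K₃ * K₄ := by
  obtain ⟨i, hi, j, hj, hm, h1, h2⟩ := h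
  rw [mem_Ico] at hi
  rw [mem_range] at hj
  have hK : 1 ≤ K₃ * K₄ := Nat.one_le_iff_ne_zero.2 (Nat.mul_ne_zero (by omega) (by omega))
  obtain ⟨_, _, _, hcl, _⟩ := hGPT x (K₃ * K₄) hx hK
  have hl1 := (hcl i l₁).1 h1
  have hl2 := (hcl j l₂).1 h2
  have k3 : (0 : ℝ) < K₃ := by exact_mod_cast hK₃
  have k4 : (0 : ℝ) < K₄ := by exact_mod_cast hK₄
  have k34 : (0 : ℝ) < (K₃ : ℝ) * K₄ := by positivity
  have x0 : (0 : ℝ) < x := by exact_mod_cast hx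
  push_cast at hl1 hl2
  have hbi : (b : ℝ) * K₄ ≤ i := by exact_mod_cast hi.1
  have hbi2 : (i : ℝ) + 1 ≤ ((b : ℝ) + 1) * K₄ := by exact_mod_cast hi.2
  have e1 : (b : ℝ) / K₃ ≤ (i : ℝ) / (K₃ * K₄) := by
    rw [div_le_div_iff₀ k3 k34]
    calc (b : ℝ) * (K₃ * K₄) = K₃ * (b * K₄) := by ring
      _ ≤ K₃ * i := mul_le_mul_of_nonneg_left hbi k3.le
      _ = i * K₃ := by ring
  have e2 : ((i : ℝ) + 1) / (K₃ * K₄) ≤ ((b : ℝ) + 1) / K₃ := by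
    rw [div_le_div_iff₀ k34 k3]
    calc ((i : ℝ) + 1) * K₃ ≤ (((b : ℝ) + 1) * K₄) * K₃ := mul_le_mul_of_nonneg_right hbi2 k3.le
      _ = ((b : ℝ) + 1) * (K₃ * K₄) := by ring
  have hpow : ∀ s t : ℝ, s ≤ t → (2 : ℝ) ^ s ≤ (2 : ℝ) ^ t := fun s t hst =>
    Real.rpow_le_rpow_of_exponent_le (by norm_num) hst
  have hpos : ∀ s : ℝ, 0 < (2 : ℝ) ^ s := fun s => Real.rpow_pos_of_pos (by norm_num) _
  have l10 : (0 : ℝ) < l₁ := lt_trans (mul_pos x0 (hpos _)) hl1.1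
  have hmr : (m : ℝ) = j - i := by
    rw [← hm]
    push_cast
    ring
  refine ⟨?_, ?_, ?_, ?_, ?_⟩
  · exact lt_of_le_of_lt (mul_le_mul_of_nonneg_left (hpow _ _ e1) x0.le) hl1.1
  · exact hl1.2.trans (mul_le_mul_of_nonneg_left (hpow _ _ e2) x0.le)
  · rw [le_div_iff₀ l10]
    calc (2 : ℝ) ^ (((m : ℝ) - 1) / (K₃ * K₄)) * l₁
        ≤ (2 : ℝ) ^ (((m : ℝ) - 1) / (K₃ * K₄)) * (x * (2 : ℝ) ^ (((i : ℝ) + 1) / (K₃ * K₄))) :=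
          mul_le_mul_of_nonneg_left hl1.2 (hpos _).le
      _ = x * ((2 : ℝ) ^ (((m : ℝ) - 1) / (K₃ * K₄)) * (2 : ℝ) ^ (((i : ℝ) + 1) / (K₃ * K₄))) := by ring
      _ = x * (2 : ℝ) ^ ((j : ℝ) / (K₃ * K₄)) := by
          rw [← Real.rpow_add (by norm_num), ← add_div, hmr]
          congr 3
          ring
      _ ≤ l₂ := hl2.1.le
  · rw [div_le_iff₀ l10]
    calc (l₂ : ℝ) ≤ x * (2 : ℝ) ^ (((j : ℝ) + 1) / (K₃ * K₄)) := hl2.2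
      _ = x * ((2 : ℝ) ^ (((m : ℝ) + 1) / (K₃ * K₄)) * (2 : ℝ) ^ ((i : ℝ) / (K₃ * K₄))) := by
          rw [← Real.rpow_add (by norm_num), ← add_div, hmr]
          congr 3
          ring
      _ = (2 : ℝ) ^ (((m : ℝ) + 1) / (K₃ * K₄)) * (x * (2 : ℝ) ^ ((i : ℝ) / (K₃ * K₄))) := by ring
      _ ≤ (2 : ℝ) ^ (((m : ℝ) + 1) / (K₃ * K₄)) * l₁ := mul_le_mul_of_nonneg_left hl1.1.le (hpos _).le
  · have hj2 : (j : ℝ) ≤ K₃ * K₄ := by exact_mod_cast hj.le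
    have hi2 : (i : ℝ) ≤ K₃ * K₄ := by
      have h3 : i ≤ K₃ * K₄ := by
        calc i ≤ (b + 1) * K₄ := hi.2.le
          _ ≤ K₃ * K₄ := Nat.mul_le_mul_right _ hb
      exact_mod_cast h3
    have hj0 : (0 : ℝ) ≤ j := Nat.cast_nonneg _
    have hi0 : (0 : ℝ) ≤ i := Nat.cast_nonneg _
    rw [hmr, abs_le]
    constructor <;> linarith

theorem VAR (hGPT : GPT_stmt) (hFFC : FFC_stmt) : VAR_stmt := by
  intro x N A K₁ K₃ K₄ hx hN hA hK₁ hK₃ hK₄ hK z hz z' hz' hd b hb m l₁ l₂ l₁' l₂' h h'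
  obtain ⟨p1, p2, p3, p4, p5⟩ := VAR_inc hGPT x K₃ K₄ b m _ _ hx hK₃ hK₄ hb h
  obtain ⟨q1, q2, q3, q4, _⟩ := VAR_inc hGPT x K₃ K₄ b m _ _ hx hK₃ hK₄ hb h'
  have k1 : (0 : ℝ) < K₁ := by exact_mod_cast hK₁
  have k3 : (0 : ℝ) < K₃ := by exact_mod_cast hK₃
  have k4 : (0 : ℝ) < K₄ := by exact_mod_cast hK₄
  have k31 : (1 : ℝ) ≤ K₃ := by exact_mod_cast hK₃
  have k41 : (1 : ℝ) ≤ K₄ := by exact_mod_cast hK₄
  have k34 : (0 : ℝ) < (K₃ : ℝ) * K₄ := by positivity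
  have k341 : (1 : ℝ) ≤ (K₃ : ℝ) * K₄ := one_le_mul_of_one_le_of_one_le k31 k41
  have x0 : (0 : ℝ) < x := by exact_mod_cast hx
  have N0 : (0 : ℝ) < N := by exact_mod_cast hN
  have A0 : (0 : ℝ) < A := by exact_mod_cast hA
  have hpow : ∀ s t : ℝ, s ≤ t → (2 : ℝ) ^ s ≤ (2 : ℝ) ^ t := fun s t hst =>
    Real.rpow_le_rpow_of_exponent_le (by norm_num) hst
  have hpos : ∀ s : ℝ, 0 < (2 : ℝ) ^ s := fun s => Real.rpow_pos_of_pos (by norm_num) _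
  -- the coarse interval
  have l10 : (0 : ℝ) < l₁ := lt_trans (mul_pos x0 (hpos _)) p1
  have l10' : (0 : ℝ) < l₁' := lt_trans (mul_pos x0 (hpos _)) q1
  have hwid : (x : ℝ) * (2 : ℝ) ^ (((b : ℝ) + 1) / K₃) - x * (2 : ℝ) ^ ((b : ℝ) / K₃) ≤
      x * (2 : ℝ) ^ ((b : ℝ) / K₃) / K₃ := by
    have h1 := (VAR_two (1 / K₃) (by positivity) (by rw [div_le_one k3]; exact k31)).1
    rw [add_div, Real.rpow_add (by norm_num)]
    have h2 : 0 < (x : ℝ) * (2 : ℝ) ^ ((b : ℝ) / K₃) := mul_pos x0 (hpos _)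
    have h3 := mul_le_mul_of_nonneg_left h1 h2.le
    have e : (x : ℝ) * (2 : ℝ) ^ ((b : ℝ) / K₃) / K₃ = x * (2 : ℝ) ^ ((b : ℝ) / K₃) * (1 + 1 / K₃) - x * (2 : ℝ) ^ ((b : ℝ) / K₃) := by
      ring
    rw [e]
    linarith
  have hll : |(l₁ : ℝ) - l₁'| ≤ l₁' / K₃ := by
    have h1 : (x : ℝ) * (2 : ℝ) ^ ((b : ℝ) / K₃) / K₃ ≤ l₁' / K₃ := div_le_div_of_nonneg_right q1.le k3.le
    rw [abs_le]
    constructor <;> linarith
  have hl2 : (l₁ : ℝ) ≤ 2 * x := by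
    have h1 : ((b : ℝ) + 1) / K₃ ≤ 1 := by
      rw [div_le_one k3]
      exact_mod_cast hb
    have h2 := hpow _ _ h1
    rw [Real.rpow_one] at h2
    calc (l₁ : ℝ) ≤ x * (2 : ℝ) ^ (((b : ℝ) + 1) / K₃) := p2
      _ ≤ x * 2 := mul_le_mul_of_nonneg_left h2 x0.le
      _ = 2 * x := by ring
  -- the quotients
  have hr : |(l₂ : ℝ) / l₁ - l₂' / l₁'| ≤ 4 / ((K₃ : ℝ) * K₄) := by
    have h1 := VAR_two (1 / ((K₃ : ℝ) * K₄)) (by positivity) (by rw [div_le_one k34]; exact k341)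
    have h2 : (2 : ℝ) ^ ((m : ℝ) / (K₃ * K₄)) ≤ 2 := by
      have h3 : (m : ℝ) / (K₃ * K₄) ≤ 1 := by
        rw [div_le_one k34]
        exact (le_abs_self _).trans p5
      have h4 := hpow _ _ h3
      rwa [Real.rpow_one] at h4
    have e1 : (2 : ℝ) ^ (((m : ℝ) + 1) / (K₃ * K₄)) = (2 : ℝ) ^ ((m : ℝ) / (K₃ * K₄)) * (2 : ℝ) ^ (1 / ((K₃ : ℝ) * K₄)) := by
      rw [← Real.rpow_add (by norm_num), ← add_div]
    have e2 : (2 : ℝ) ^ (((m : ℝ) - 1) / (K₃ * K₄)) = (2 : ℝ) ^ ((m : ℝ) / (K₃ * K₄)) * (2 : ℝ) ^ (-(1 / ((K₃ : ℝ) * K₄))) := by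
      rw [← Real.rpow_add (by norm_num), ← sub_eq_add_neg, ← sub_div]
    rw [e1] at p4 q4
    rw [e2] at p3 q3
    have h5 : (2 : ℝ) ^ ((m : ℝ) / (K₃ * K₄)) * (2 : ℝ) ^ (1 / ((K₃ : ℝ) * K₄)) -
        (2 : ℝ) ^ ((m : ℝ) / (K₃ * K₄)) * (2 : ℝ) ^ (-(1 / ((K₃ : ℝ) * K₄))) ≤ 4 / ((K₃ : ℝ) * K₄) := by
      rw [← mul_sub]
      have h6 : (2 : ℝ) ^ (1 / ((K₃ : ℝ) * K₄)) - (2 : ℝ) ^ (-(1 / ((K₃ : ℝ) * K₄))) ≤ 2 / ((K₃ : ℝ) * K₄) := by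
        have e3 : 2 / ((K₃ : ℝ) * K₄) = 1 / ((K₃ : ℝ) * K₄) + 1 / ((K₃ : ℝ) * K₄) := by ring
        rw [e3]
        linarith [h1.1, h1.2]
      have h7 : (2 : ℝ) ^ ((m : ℝ) / (K₃ * K₄)) * ((2 : ℝ) ^ (1 / ((K₃ : ℝ) * K₄)) - (2 : ℝ) ^ (-(1 / ((K₃ : ℝ) * K₄)))) ≤
          (2 : ℝ) ^ ((m : ℝ) / (K₃ * K₄)) * (2 / ((K₃ : ℝ) * K₄)) := mul_le_mul_of_nonneg_left h6 (hpos _).le
      have h8 : (2 : ℝ) ^ ((m : ℝ) / (K₃ * K₄)) * (2 / ((K₃ : ℝ) * K₄)) ≤ 2 * (2 / ((K₃ : ℝ) * K₄)) :=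
        mul_le_mul_of_nonneg_right h2 (by positivity)
      have e4 : 2 * (2 / ((K₃ : ℝ) * K₄)) = 4 / ((K₃ : ℝ) * K₄) := by ring
      linarith
    rw [abs_le]
    constructor <;> linarith
  -- the coefficients
  have hz1 := (hFFC (2 * N)).2 z (mem_of_mem_filter z hz)
  have hz2 := (hFFC (2 * N)).2 z' (mem_of_mem_filter z' hz')
  have c1 : (z.1 : ℝ) ^ 2 ≤ 4 * N := by
    have := hz1.1
    have h2 : z.1 ^ 2 ≤ 4 * (N : ℤ) := by push_cast at this; linarith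
    exact_mod_cast h2
  have c2 : (z.2 : ℝ) ^ 2 ≤ 2 * N := by
    have := hz1.2
    have h2 : z.2 ^ 2 ≤ 2 * (N : ℤ) := by push_cast at this; linarith
    exact_mod_cast h2
  have c3 : (z'.1 : ℝ) ^ 2 ≤ 4 * N := by
    have := hz2.1
    have h2 : z'.1 ^ 2 ≤ 4 * (N : ℤ) := by push_cast at this; linarith
    exact_mod_cast h2
  have c4 : (z'.2 : ℝ) ^ 2 ≤ 2 * N := by
    have := hz2.2
    have h2 : z'.2 ^ 2 ≤ 2 * (N : ℤ) := by push_cast at this; linarith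
    exact_mod_cast h2
  have hsp : |(sp z z' : ℝ)| ≤ 20 * N := by
    unfold sp
    push_cast
    rw [abs_le]
    constructor <;> nlinarith [sq_nonneg ((z.1 : ℝ) - z'.1), sq_nonneg ((z.1 : ℝ) + z'.1), sq_nonneg ((z.2 : ℝ) - z'.2), sq_nonneg ((z.2 : ℝ) + z'.2)]
  have hn8 : |(N8 z : ℝ)| ≤ 20 * N := by
    unfold N8
    push_cast
    rw [abs_le]
    constructor <;> nlinarith [sq_nonneg (z.1 : ℝ), sq_nonneg (z.2 : ℝ)]
  have hd' : (N : ℝ) * A < K₁ * (x * |(dl z z' : ℝ)|) := by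
    have h1 : ((N * A : ℕ) : ℝ) < ((K₁ * (x * (dl z z').natAbs) : ℕ) : ℝ) := by exact_mod_cast hd
    push_cast at h1
    rw [Nat.cast_natAbs] at h1
    push_cast at h1
    exact h1
  have hK' : 160 * (K₁ : ℝ) * (x : ℝ) ^ 2 ≤ K₄ * (A : ℝ) ^ 2 := by exact_mod_cast hK
  have hdn : (dl z z' : ℝ) ≠ 0 := by
    intro h0
    rw [h0, abs_zero, mul_zero, mul_zero] at hd'
    have : 0 < (N : ℝ) * A := by positivity
    linarith
  have f1 : ∀ u v : ℤ, (0 : ℝ) < u → (dl z z' : ℝ) * a1 z z' u v = u * (sp z z' - N8 z * (v / u)) := by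
    intro u v hu
    unfold a1
    rw [mul_div_cancel₀ _ hdn]
    have hu' : (u : ℝ) ≠ 0 := hu.ne'
    field_simp
  have f2 : ∀ u v : ℤ, (0 : ℝ) < u → (dl z z' : ℝ) * a2 z z' u v = u * (N8 z' - sp z z' * (v / u)) := by
    intro u v hu
    unfold a2
    rw [mul_div_cancel₀ _ hdn]
    have hu' : (u : ℝ) ≠ 0 := hu.ne'
    field_simp
  have r1 := VAR_core K₁ K₃ K₄ x N A l₁ l₁' (l₂ / l₁) (l₂' / l₁') (sp z z') (N8 z) (dl z z')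
    (a1 z z' l₁ l₂) (a1 z z' l₁' l₂') k3 k4 x0 N0 A0 hd' hK' l10 l10' hl2 hll hr hn8 (f1 l₁ l₂ l10) (f1 l₁' l₂' l10')
  have r2 := VAR_core K₁ K₃ K₄ x N A l₁ l₁' (l₂ / l₁) (l₂' / l₁') (N8 z') (sp z z') (dl z z')
    (a2 z z' l₁ l₂) (a2 z z' l₁' l₂') k3 k4 x0 N0 A0 hd' hK' l10 l10' hl2 hll hr hsp (f2 l₁ l₂ l10) (f2 l₁' l₂' l10')
  exact ⟨r1, r2⟩

end Pool.Agent.EU
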